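import Pool.Agent.Lib.MP_04f01b_co.Final

set_option autoImplicit false

namespace Pool.Agent.Results.MP_04f01b_co.IrreducibleCounterexample

open Pool.Agent.Lib.MP_04f01b_co Polynomial

/-- There is an irreducible arrangement of rank 4 (consisting of six hyperplanes of `ℝ^4`) whose
tope graph is not vertex-transitive, although the `n`-th cyclotomic polynomial, `n` being the
number of hyperplanes, does not divide the reduced denominator of its magnitude. -/
theorem result : ∃ A : Arrangement 4, A.rank = 4 ∧ A.hyps.card = 6 ∧ A.IsIrreducible ∧
    ¬ IsVertexTransitive A.topeGraph ∧ ¬ (cyclotomic A.hyps.card ℚ ∣ A.mag.denom) :=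
  ⟨exA, rank_eq, card_hyps, irreducible, not_transitive, not_dvd⟩

end Pool.Agent.Results.MP_04f01b_co.IrreducibleCounterexample
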